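import Pool.Agent.MP_aef39a_lc.H46B.Below

namespace Pool.Agent.Results.MP_aef39a_lc.CubicBound

open Pool.Agent.MP_aef39a_lc

theorem result : ∃ ε : ℝ, 0 < ε ∧
    ∃ c : ℝ, ∀ (Q A : Type) [Fintype Q] [Nonempty Q] [Fintype A] [Nonempty A] (δ : Q → A → Q),
      (∃ w, IsReset δ w) → ∃ w : List A, IsReset δ w ∧
        (w.length : ℝ) ≤ (7 / 48 - ε) * (Fintype.card Q : ℝ) ^ 3 + c * (Fintype.card Q : ℝ) ^ 2 := by
  obtain ⟨ε, hε, c, hc⟩ := H46.below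
  exact ⟨ε, hε, c, fun Q A _ _ _ _ δ hs => hc Q A δ hs⟩

end Pool.Agent.Results.MP_aef39a_lc.CubicBound
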