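import Pool.Agent.MP_aef39a_lc.Mg.Hard

namespace Pool.Agent.Results.MP_aef39a_lc.QuadraticBarrier

open Pool.Agent.MP_aef39a_lc

theorem result {Q A : Type} [Fintype Q] [Nonempty Q] [Fintype A] [Nonempty A] (δ : Q → A → Q)
    (hsync : ∃ w, IsReset δ w)
    (hslow : ∀ w, IsReset δ w → (25 * Fintype.card Q + 19) ^ 2 ≤ w.length) :
    ∃ (Q' A' : Type) (_ : Fintype Q') (_ : Nonempty Q') (_ : Fintype A') (_ : Nonempty A')
      (δ' : Q' → A' → Q'), StronglyConnected δ' ∧ Extremal δ' ∧ ¬ Simple δ' :=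
  counter_of_slow δ hsync hslow

end Pool.Agent.Results.MP_aef39a_lc.QuadraticBarrier
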