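import Pool.Agent.MP_aef39a_lc.RankLift

namespace Pool.Agent.Results.MP_aef39a_lc.RankReduction

open Pool.Agent.MP_aef39a_lc

theorem result {Q A : Type} [Fintype Q] [Nonempty Q] [Fintype A] [Nonempty A] (δ : Q → A → Q)
    (hrank : RankConjectureUpTo (Fintype.card Q)) (hsync : ∃ w, IsReset δ w)
    (σ : Setoid Q) (hσ : ∀ (p q : Q) (a : A), σ.r p q → σ.r (δ p a) (δ q a))
    (hne : ¬ ∀ p q : Q, σ.r p q ↔ p = q) (hnu : ¬ ∀ p q : Q, σ.r p q) :
    ∃ w : List A, IsReset δ w ∧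
      w.length ≤ (Nat.card (Quotient σ) - 1) ^ 2 + (Fintype.card Q - Nat.card (Quotient σ)) ^ 2 ∧
      w.length ≤ (Fintype.card Q - 2) ^ 2 + 1 ∧ w.length < (Fintype.card Q - 1) ^ 2 := by
  classical
  obtain ⟨w, hw, hl⟩ := reset_of_rankConjecture δ hrank hsync σ hσ
  let _i : Fintype (Quotient σ) := Fintype.ofFinite _
  have h1 : Fintype.card (Quotient σ) < Fintype.card Q := by
    refine Fintype.card_lt_of_surjective_not_injective _ Quotient.mk_surjective fun h => hne ?_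
    intro p q
    exact ⟨fun hpq => h (Quotient.sound hpq), fun e => e ▸ σ.refl p⟩
  have h2 : 1 < Fintype.card (Quotient σ) := by
    push Not at hnu
    obtain ⟨p, q, hpq⟩ := hnu
    exact Fintype.one_lt_card_iff.2 ⟨Quotient.mk σ p, Quotient.mk σ q,
      fun e => hpq (Quotient.exact e)⟩
  refine ⟨w, hw, hl, ?_⟩
  rw [Nat.card_eq_fintype_card] at hl
  obtain ⟨x, hx⟩ : ∃ x, Fintype.card (Quotient σ) = x + 2 := ⟨_, (Nat.sub_add_cancel h2).symm⟩
  obtain ⟨y, hy⟩ : ∃ y, Fintype.card Q = x + 2 + (y + 1) :=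
    ⟨Fintype.card Q - (x + 3), by omega⟩
  rw [hx, hy] at hl
  rw [hy]
  have e1 : x + 2 - 1 = x + 1 := by omega
  have e2 : x + 2 + (y + 1) - (x + 2) = y + 1 := by omega
  have e3 : x + 2 + (y + 1) - 2 = x + y + 1 := by omega
  have e4 : x + 2 + (y + 1) - 1 = x + y + 2 := by omega
  rw [e1, e2] at hl
  rw [e3, e4]
  constructor <;> nlinarith [Nat.zero_le (x * y)]

end Pool.Agent.Results.MP_aef39a_lc.RankReduction
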