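import Pool.Agent.MP_aef39a_lc.Mg.Uniform

namespace Pool.Agent.Results.MP_aef39a_lc.UniformWords

open Pool.Agent.MP_aef39a_lc

theorem result {Q A I : Type} [Fintype Q] [DecidableEq Q] [Nonempty Q] [Fintype A] [Nonempty A]
    [Fintype I] (δ : Q → A → Q) (w : I → List A) (c : ℕ) (hc : 0 < c)
    (hlen : ∀ i, (w i).length ≤ Fintype.card Q)
    (hperm : ∀ i, Function.Injective fun q => act δ q (w i))
    (hunif : ∀ p q, (Finset.univ.filter fun i => act δ p (w i) = q).card = c)
    (hsync : ∃ z, IsReset δ z) (hns : ¬ Simple δ) :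
    ∃ u, IsReset δ u ∧ u.length < (Fintype.card Q - 1) ^ 2 :=
  short_of_uniform δ w c hc hlen hperm hunif hsync hns

end Pool.Agent.Results.MP_aef39a_lc.UniformWords
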